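import Pool.Agent.ATP.Stmts
import Pool.Agent.Helper31_AT5.TY5
import Pool.Agent.Helper9_PP.Add

/-!
# Squad ATP, row TXP: the subgroups of `X = N(U)` which are not between `U` and `C(U)`
-/

set_option autoImplicit false

open scoped BigOperators

noncomputable section

namespace Pool.Agent.PP.TP.H81

open Pool.Agent.Helper51_AWC Pool.Agent.Helper79_WRA Pool.Agent.PP Pool.Agent.PP.KF
open Pool.Agent.PP.K9 Pool.Agent.PP.K9.H97 Pool.Agent.PP.H75 Pool.Agent.PP.T3 Pool.Agent.PP.T2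
open Pool.Agent.PP.TB

attribute [local instance] Ideal.Quotient.field

/-- the abstract form -/
theorem tx_aux (zcf : ZcfStmt) (ctq : CtqStmt) (pqz : PqzStmt) (pmx : PmxStmt) {ℓ : ℕ}
    [Fact ℓ.Prime] {M : Ideal (integralClosure ℤ ℂ)} [M.IsMaximal]
    (hM : (ℓ : integralClosure ℤ ℂ) ∈ M) {X : Type} [Group X] [Finite X] {a p r a₀ n : ℕ}
    (ha : 0 < a) (ha₀ : a₀ ≤ a) {fX : X → FF M} {W : Subgroup X} (hblk : IsBlk fX)
    (htp : Tp ℓ fX W) (hcl : Cl ℓ r p W) (hexp : Monoid.exponent (Zc W) = ℓ ^ a)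
    (hUn : ∀ g : X, conjS g (Uz ℓ a W) = Uz ℓ a W) (hn : Nat.card X ≤ n)
    (hIh : Ihz M ℓ r p a₀ n) {Q : Subgroup X} (hQ : IsPGroup ℓ Q) (hQb : Q ≠ ⊥)
    (hno : ¬ (Uz ℓ a W ≤ Q ∧ Q ≤ Subgroup.centralizer (Uz ℓ a W : Set X))) :
    YQ ℓ fX Q = 0 := by
  classical
  have hF : GoodF ℓ (FF M) := H50.fld ℓ Fact.out M hM
  have hfid : IsIdem (fun t : Subgroup.normalizer (Q : Set X) => br Q fX t) :=
    (H20.brm ℓ (FF M) hF X Q (Subgroup.normalizer (Q : Set X)) hQ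
      (Subgroup.centralizer_le_normalizer _) le_rfl).2.2 fX hblk.1
  have hker : (QuotientGroup.mk' (Q.subgroupOf (Subgroup.normalizer (Q : Set X)))).ker =
    Q.subgroupOf (Subgroup.normalizer (Q : Set X)) := QuotientGroup.ker_mk' _
  have hs := QuotientGroup.mk'_surjective (Q.subgroupOf (Subgroup.normalizer (Q : Set X)))
  unfold YQ
  refine H9.addStmt ℓ (FF M) hF _ ⊤ inferInstance _ (push_isIdem hs hfid) ?_
  intro f₁ hf₁ hff₁
  obtain ⟨π, hπ⟩ : ∃ π, π = QuotientGroup.mk' (Q.subgroupOf (Subgroup.normalizer (Q : Set X))) :=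
    ⟨_, rfl⟩
  rw [← hπ] at hker hs hff₁
  obtain ⟨V', hV'⟩ := K9.H57.exists_tp (ℓ := ℓ) hf₁.2.1
  obtain ⟨R, b, b₃, hQR, hRN, hRV', -, hPb₃, -, -, hbr, -, hmax⟩ :=
    pqz ℓ M hM X fX hblk.1 Q hQ _ π hs hker f₁ hf₁ hff₁ V' hV'
  obtain ⟨x, γ', hPD, hLe⟩ := pmx ℓ M hM X fX W hblk htp R b₃ hPb₃ hbr
  obtain ⟨⟨zle, zcen, -, -, zconj, -⟩, zU, zCl, -⟩ := zcf X (conjS x W)
  obtain ⟨⟨-, -, -, -, zconjW, -⟩, zUW, zClW, -⟩ := zcf X W
  have hRD : R ≤ conjS x W := hLe.sub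
  have hQD : Q ≤ conjS x W := hQR.trans hRD
  have hZC : Zc (conjS x W) ≤ Subgroup.centralizer (Q : Set X) := by
    intro z hz
    rw [Subgroup.mem_centralizer_iff]
    intro q hq
    exact (Subgroup.mem_centralizer_iff.1 (zcen (hQD hq)) z hz).symm
  have hZR : Zc (conjS x W) ≤ R := (le_inf zle hZC).trans (hmax _ _ hPD hLe)
  have hexpD : Monoid.exponent (Zc (conjS x W)) = ℓ ^ a := by
    rw [zconjW x, ← hexp]
    exact (Monoid.exponent_eq_of_mulEquiv (conjSEquiv x (Zc W))).symm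
  have hClD : Cl ℓ r p (conjS x W) := (zClW ℓ r p hcl).2.1 x
  have hUD : Uz ℓ a (conjS x W) = Uz ℓ a W := by
    rw [(zUW ℓ a).2.2.2.1 x, hUn x]
  have hPGD : IsPGroup ℓ (conjS x W) := hPD.pg
  obtain ⟨hCl', hor⟩ := ctq ℓ X _ r p (conjS x W) R (Subgroup.normalizer (Q : Set X)) π V' hPGD
    hRD hRN hZR hRV'.symm
  have hkm : π.ker.map (Subgroup.normalizer (Q : Set X)).subtype = Q := by
    rw [hker, Subgroup.subgroupOf_map_subtype]
    exact inf_eq_left.2 Subgroup.le_normalizer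
  have hz : ∃ z ∈ Zc V', orderOf z = ℓ ^ a := by
    rcases hor a ha hexpD with h | h
    · exact h
    · exfalso
      rw [hkm, hUD] at h
      refine hno ⟨h, hQD.trans ?_⟩
      have h2 := (zU ℓ a).2.1
      rw [hUD] at h2
      exact h2
  obtain ⟨z, hzV, hzo⟩ := hz
  -- the order
  have hcard : Nat.card (Subgroup.normalizer (Q : Set X) ⧸
      Q.subgroupOf (Subgroup.normalizer (Q : Set X))) < n := by
    have hQ1 : 1 < Nat.card Q := by
      rw [Subgroup.one_lt_card_iff_ne_bot]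
      exact hQb
    have h1 :=
      (Q.subgroupOf (Subgroup.normalizer (Q : Set X))).card_eq_card_quotient_mul_card_subgroup
    have h2 : Nat.card (Q.subgroupOf (Subgroup.normalizer (Q : Set X))) = Nat.card Q :=
      Nat.card_congr (Subgroup.subgroupOfEquivOfLe Subgroup.le_normalizer).toEquiv
    have h3 : Nat.card (Subgroup.normalizer (Q : Set X)) ≤ n :=
      (Subgroup.card_le_card_group _).trans hn
    have h4 : 0 < Nat.card (Subgroup.normalizer (Q : Set X) ⧸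
        Q.subgroupOf (Subgroup.normalizer (Q : Set X))) := Nat.card_pos
    rw [h2] at h1
    nlinarith
  have hl0 : 0 < ℓ := (Fact.out : ℓ.Prime).pos
  refine hIh _ hcard f₁ hf₁ V' hV' (hCl' hClD) ⟨z ^ ℓ ^ (a - a₀), pow_mem hzV _, ?_⟩
  have h5 : ℓ ^ (a - a₀) ∣ orderOf z := by
    rw [hzo]
    exact pow_dvd_pow _ (Nat.sub_le _ _)
  rw [orderOf_pow_of_dvd (pow_pos hl0 _).ne' h5, hzo, Nat.pow_div (Nat.sub_le _ _) hl0]
  congr 1
  omega

theorem txp (zcf : ZcfStmt) (ctq : CtqStmt) (pqz : PqzStmt) (pmx : PmxStmt) : TxpStmt := by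
  intro ℓ _ M _ hM G _ _ a p r a₀ e V hH hCl f hf ha₀ hIh U hUdef Q hQ hQb hno
  classical
  have ha : 0 < a := Nat.zero_lt_of_lt hH.lt
  obtain ⟨⟨zle, zcen, zab, znor, zconj, zsub⟩, zU, zCl, -⟩ := zcf G V
  have hfB := hf.blk
  have hfnle := hf.nle
  have hftp := hf.tp
  rw [← hUdef] at hfB hfnle hftp
  have hVX : V ≤ Subgroup.normalizer (U : Set G) := Subgroup.le_normalizer.trans hfnle
  have hcl : Cl ℓ r p (V.subgroupOf (Subgroup.normalizer (U : Set G))) :=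
    (zCl ℓ r p hCl).2.2 _ hVX
  have hexp : Monoid.exponent (Zc (V.subgroupOf (Subgroup.normalizer (U : Set G)))) = ℓ ^ a := by
    rw [zsub _ hVX, ← hH.exp]
    exact Monoid.exponent_eq_of_mulEquiv (Subgroup.subgroupOfEquivOfLe (zle.trans hVX))
  have hUX : Uz ℓ a (V.subgroupOf (Subgroup.normalizer (U : Set G))) =
      U.subgroupOf (Subgroup.normalizer (U : Set G)) := by
    rw [(zU ℓ a).2.2.2.2.1 _ hVX, ← hUdef]
  refine tx_aux zcf ctq pqz pmx hM ha ha₀ hfB.blk hftp hcl hexp ?_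
    (Subgroup.card_le_card_group _) hIh hQ hQb ?_
  · intro g
    rw [hUX]
    ext t
    rw [T3.H62.mem_conjS, Subgroup.mem_subgroupOf, Subgroup.mem_subgroupOf]
    have h1 := Subgroup.mem_normalizer_iff.1 (inv_mem g.2) (t : G)
    rw [inv_inv] at h1
    exact h1.symm
  · rw [hUX]
    rintro ⟨h1, h2⟩
    refine hno ⟨h1, ?_⟩
    intro x hx
    rw [Subgroup.mem_subgroupOf, Subgroup.mem_centralizer_iff]
    intro v hv
    have h3 := Subgroup.mem_centralizer_iff.1 (h2 hx)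
      ⟨v, Subgroup.le_normalizer hv⟩ (Subgroup.mem_subgroupOf.2 hv)
    exact congrArg Subtype.val h3

end Pool.Agent.PP.TP.H81
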